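import Pool.Agent.Q106.WG.InfoLow

/-!
# MP_ee77ae_nt: the information threshold of Waring's problem

`pw k q n` is the number `w(n)` of the classes `x` modulo `q` with `x ^ k ≡ n`, `prob k q n = min 1 (w(n) n^(1/k-1) / k)`,
`UU k q` the set of the `n` with `0 < prob k q n < 1`. In the sieved model of the `k`-th powers the elements of `UU k q` are
chosen independently with these probabilities. For any random set `A` of natural numbers
`relEnt (prob k q) μ A (ind (UU k q) x)` is the relative entropy of the law of `A ∩ UU k q ∩ [0, x)` with respect to the model.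
`reps S s n` is the number of the `(a_1, …, a_s)` with `a_i ∈ S` and sum `n`; `SumOf S s n`: `n` is a sum of at most `s`
elements of `S`; `SumMod k q s n`: `n` is a sum of `s` `k`-th powers modulo `q`.
-/

set_option autoImplicit false

namespace Pool.Agent.Results.MP_ee77ae_nt.InformationThreshold

open MeasureTheory Filter Pool.Agent.Q106.WG
open Pool.Agent.Q120.ET (IsRandomSet)
open Pool.Agent.Q120.ME (relEnt ind)

/-- **The threshold is `∑ d(n) / n^(1+1/k) < ∞`, for every number `s ≥ k + 1` of summands.** -/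
theorem result (k q s : ℕ) (hk : 2 ≤ k) (hq : 1 ≤ q) (hs : k + 1 ≤ s) :
    ∃ c : ℝ, 0 < c ∧ ∀ d : ℕ → ℝ, Monotone d → (∀ n, 0 ≤ d n) →
      (Summable (fun n : ℕ => d n / (n : ℝ) ^ (1 + 1 / (k : ℝ))) →
        ∀ (Ω : Type) [MeasurableSpace Ω] (μ : Measure Ω) [IsProbabilityMeasure μ] (A : Ω → Set ℕ), IsRandomSet A →
          (∀ᶠ x : ℕ in atTop, relEnt (prob k q) μ A (ind (UU k q) x) ≤ d x) →
          ∀ᵐ ω ∂μ, ∀ᶠ n : ℕ in atTop, SumMod k q s n → c * (n : ℝ) ^ ((s : ℝ) / k - 1) ≤ reps (A ω) s n) ∧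
      (¬ Summable (fun n : ℕ => d n / (n : ℝ) ^ (1 + 1 / (k : ℝ))) →
        ∃ (Ω : Type) (_ : MeasurableSpace Ω) (μ : Measure Ω) (_ : IsProbabilityMeasure μ) (A : Ω → Set ℕ), IsRandomSet A ∧
          (∀ x : ℕ, relEnt (prob k q) μ A (ind (UU k q) x) ≤ d x) ∧ (∀ᵐ ω ∂μ, A ω ⊆ UU k q) ∧
          ∀ᵐ ω ∂μ, ∀ c : ℕ, ∃ᶠ n : ℕ in atTop, n ≡ c [MOD q] ∧ ¬ SumOf (A ω) s n) := by
  obtain ⟨r, rfl⟩ : ∃ r, s = r + 1 := ⟨s - 1, by omega⟩
  obtain ⟨c, hc, h⟩ := info_upper hk hq (show k ≤ r by omega)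
  refine ⟨c, hc, fun d hd hd0 => ⟨fun hsum Ω _ μ _ A hA hent => ?_, fun hns => info_lower hk hq (r + 1) hd hd0 hns⟩⟩
  filter_upwards [h d hd hd0 hsum Ω μ A hA hent] with ω hω
  filter_upwards [hω] with n hn hs'
  push_cast
  exact hn hs'

end Pool.Agent.Results.MP_ee77ae_nt.InformationThreshold
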