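import Pool.Agent.Q154.War.DimX

/-!
# MP_ee77ae_nt: `4k` summands, all but a few of them `k`-th powers of primes

Let `k ≥ 2`, `0 < 1/k - (1 - 1/k)^s` and `2^J (1/k - (1 - 1/k)^s) > 1`. For almost every `α ∈ [0, 1]`
and almost all positive reals `β₁, …, β_J` every large integer is a sum of `s` `k`-th powers of
elements of a given rich set (for instance the primes), of one integer part `⌊(y + α)^k⌋` and of `J`
integer parts `⌊β_i z_i^k⌋` with the `z_i` in given slowly growing sets (for instance the powers of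
two). For `2 ≤ k ≤ 42` the total number of summands can be taken to be `4k` with `J ≤ 10`.
-/

set_option autoImplicit false

open MeasureTheory Set

namespace Pool.Agent.Results.MP_ee77ae_nt.MostlyIntegralPowers

/-- A set of naturals which has, for each `ε > 0`, an element in `[X^(1-ε), X]` for all large `X`
(such as the powers of two, or any infinite set whose consecutive elements have asymptotically equal
logarithms). -/
def SlowlyGrowing (B : Set ℕ) : Prop :=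
  ∀ ε : ℝ, 0 < ε → ∃ X₀ : ℝ, ∀ X ≥ X₀, ∃ b ∈ B, X ^ (1 - ε) ≤ (b : ℝ) ∧ (b : ℝ) ≤ X

/-- A set of naturals with at least `X^(1-ε)` elements up to `X`, for each `ε > 0` and all large
`X`. -/
def Rich (D : Set ℕ) : Prop :=
  ∀ ε : ℝ, 0 < ε → ∃ X₀ : ℝ, ∀ X ≥ X₀, X ^ (1 - ε) ≤ ({a : ℕ | a ∈ D ∧ (a : ℝ) ≤ X}.ncard : ℝ)

/-- `n = x₁^k + … + x_s^k + ⌊(y + α)^k⌋ + ⌊β₁ z₁^k⌋ + … + ⌊β_J z_J^k⌋` with positive integers
`x_i ∈ D`, `y`, and `z_i ∈ E_i`. -/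
def Rep (D : Set ℕ) (k s : ℕ) (α : ℝ) {J : ℕ} (E : Fin J → Set ℕ) (β : Fin J → ℝ) (n : ℕ) : Prop :=
  ∃ (x : Fin s → ℕ) (y : ℕ) (z : Fin J → ℕ), (∀ i, x i ∈ D ∧ 0 < x i) ∧ 0 < y ∧
    (∀ i, z i ∈ E i) ∧
    n = ∑ i, x i ^ k + ⌊((y : ℝ) + α) ^ k⌋₊ + ∑ i, ⌊β i * (z i : ℝ) ^ k⌋₊

/-- For almost every `α ∈ [0, 1]`, whatever the slowly growing sets `E₁, …, E_J`, for almost all
positive `β₁, …, β_J` every large integer is represented. -/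
def AllLarge (D : Set ℕ) (k s J : ℕ) : Prop :=
  ∀ᵐ α ∂((volume : Measure ℝ).restrict (Set.Icc 0 1)), ∀ E : Fin J → Set ℕ,
    (∀ i, SlowlyGrowing (E i)) → ∀ᵐ β : Fin J → ℝ, (∀ i, 0 < β i) →
      ∃ N₀ : ℕ, ∀ n ≥ N₀, Rep D k s α E β n

lemma all_large {D : Set ℕ} (hD : Rich D) {k s J : ℕ} (hk : 2 ≤ k)
    (h : 1 < 2 ^ J * (1 / (k : ℝ) - (1 - 1 / (k : ℝ)) ^ s)) : AllLarge D k s J := by
  have h1 := Pool.Agent.Q154.War.dense_all (A := Pool.Agent.Q154.War.PX D k s)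
    (τ := (1 - 1 / (k : ℝ)) ^ s) (fun σ hσ => Pool.Agent.Q154.War.PX_dense hD hk s hσ)
  have h2 : Pool.Agent.Q154.War.ν1 = (volume : Measure ℝ).restrict (Set.Icc 0 1) := rfl
  rw [h2] at h1
  unfold AllLarge
  filter_upwards [h1] with α hα E hE
  have h3 := hα k hk J (fun i => {b : ℕ | ∃ y ∈ E i, b = y ^ k})
    (fun i => Pool.Agent.Q154.War.Slow.pow (hE i) (by omega))
  filter_upwards [h3] with β hβ hpos
  obtain ⟨N₀, hN₀⟩ := (hβ hpos).1 h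
  refine ⟨N₀, fun n hn => ?_⟩
  obtain ⟨a, ⟨m, ⟨x, hx, hm⟩, y, hy, ha⟩, b, hb, hn2⟩ := hN₀ n hn
  choose z hz hzb using hb
  refine ⟨x, y, z, hx, hy, hz, ?_⟩
  rw [hn2, ha, hm]
  have e1 : ∑ i, ⌊β i * (b i : ℝ)⌋₊ = ∑ i, ⌊β i * (z i : ℝ) ^ k⌋₊ := by
    refine Finset.sum_congr rfl fun i _ => ?_
    rw [hzb i]
    push_cast
    rfl
  rw [e1]
  rfl

/-- from an inequality between naturals -/
lemma crit {k s J : ℕ} (hk : 2 ≤ k) (h : k ^ (s + 1) + 2 ^ J * (k - 1) ^ (s + 1) < 2 ^ J * k ^ s) :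
    1 < 2 ^ J * (1 / (k : ℝ) - (1 - 1 / (k : ℝ)) ^ (s + 1)) := by
  have hk0 : (0 : ℝ) < k := by
    have : 0 < k := by omega
    exact_mod_cast this
  have h1 : (k : ℝ) ^ (s + 1) + 2 ^ J * ((k : ℝ) - 1) ^ (s + 1) < 2 ^ J * (k : ℝ) ^ s := by
    have h2 : ((k ^ (s + 1) + 2 ^ J * (k - 1) ^ (s + 1) : ℕ) : ℝ) < ((2 ^ J * k ^ s : ℕ) : ℝ) := by
      exact_mod_cast h
    push_cast [Nat.cast_sub (by omega : 1 ≤ k)] at h2
    exact h2
  have e1 : (1 - 1 / (k : ℝ)) ^ (s + 1) = ((k : ℝ) - 1) ^ (s + 1) / (k : ℝ) ^ (s + 1) := by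
    rw [← div_pow]
    congr 1
    field_simp
  have e2 : 1 / (k : ℝ) = (k : ℝ) ^ s / (k : ℝ) ^ (s + 1) := by
    rw [pow_succ]
    field_simp
  rw [e1, e2, ← sub_div, mul_div_assoc', one_lt_div (by positivity)]
  linarith

lemma table : ∀ k ∈ Finset.Icc 2 42, ∃ J ∈ Finset.range 11, J + 2 ≤ 4 * k ∧
    k ^ (4 * k - 2 - J + 1) + 2 ^ J * (k - 1) ^ (4 * k - 2 - J + 1) <
      2 ^ J * k ^ (4 * k - 2 - J) := by
  decide +kernel

/-- **`4k` summands.** -/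
theorem result :
    (∀ D : Set ℕ, Rich D → ∀ k s J : ℕ, 2 ≤ k →
      1 < 2 ^ J * (1 / (k : ℝ) - (1 - 1 / (k : ℝ)) ^ s) → AllLarge D k s J) ∧
    (∀ k : ℕ, 2 ≤ k → k ≤ 42 → ∃ s J : ℕ, s + 1 + J = 4 * k ∧ J ≤ 10 ∧
      ∀ D : Set ℕ, Rich D → AllLarge D k s J) ∧
    Rich {p : ℕ | p.Prime} := by
  refine ⟨fun D hD k s J hk h => all_large hD hk h, ?_, Pool.Agent.Q154.War.rich_primes⟩
  intro k hk hk42
  obtain ⟨J, hJ, hJk, h⟩ := table k (Finset.mem_Icc.2 ⟨hk, hk42⟩)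
  rw [Finset.mem_range] at hJ
  exact ⟨4 * k - 2 - J + 1, J, by omega, by omega, fun D hD => all_large hD hk (crit hk h)⟩

end Pool.Agent.Results.MP_ee77ae_nt.MostlyIntegralPowers
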