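import Pool.Agent.Q138.PS.XD
import Pool.Agent.Q138.PS.XL
import Pool.Agent.Results.MP_45c923_nt.AlmostAllTargets

/-!
# Waring's problem for `k`-th powers of primes with generic coefficients at ALL integers near the powers of a real number

Let `k ≥ 2` and `s ≥ k + 1`. For almost all positive `a_1, ..., a_s` and every `l < 1` there is a set `E` of real numbers of
Hausdorff dimension at most `max 0 (2 - s / k) / (1 - l)` such that for each `α > 1` outside `E`, all positive algebraic numbers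
`c`, all integers `j` and all large `n`, EVERY natural number `N` with `|N - c n ^ j α ^ n| ≤ D (c n ^ j α ^ n) ^ l` is the integer
part of `a_1 p_1 ^ k + ... + a_s p_s ^ k` with primes `p_i`. For almost every `α > 1` this holds for all `l < s / k - 1`, `l < 1`.
-/

set_option autoImplicit false

namespace Pool.Agent.Results.MP_ee77ae_nt.PrimePowersNearPowers

open Filter Topology MeasureTheory
open Pool.Agent.Q138.PS
open MP_45c923_nt.AlmostAllTargets (Exceptional)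

/-- `N` is the integer part of `a_1 p_1 ^ k + ... + a_s p_s ^ k` with primes `p_i` -/
def Rep {s : ℕ} (a : Fin s → ℝ) (k N : ℕ) : Prop :=
  ∃ p : Fin s → ℕ, (∀ i, (p i).Prime) ∧ ⌊∑ i, a i * (p i : ℝ) ^ k⌋ = (N : ℤ)

/-- for all positive algebraic numbers `c`, all integers `j`, all `D` and all large `n`: `Rep a k N` for EVERY natural number `N`
with `|N - c n ^ j α ^ n| ≤ D (c n ^ j α ^ n) ^ l` -/
def AllRep {s : ℕ} (a : Fin s → ℝ) (k : ℕ) (l α : ℝ) : Prop :=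
  ∀ c : ℝ, 0 < c → IsAlgebraic ℚ c → ∀ (j : ℤ) (D : ℝ), ∀ᶠ n : ℕ in atTop, ∀ N : ℕ, NearPow α c j D l n N → Rep a k N

theorem part1 {s : ℕ} (a : Fin s → ℝ) (k : ℕ)
    (h : ∀ ε : ℝ, 0 < ε → ∀ᶠ Y : ℝ in atTop, ((Exceptional a k Y).ncard : ℝ) ≤ Y ^ (2 - (s : ℝ) / k + ε)) (l : ℝ) (hl : l < 1) :
    ∃ E : Set ℝ, dimH E ≤ ENNReal.ofReal (max 0 (2 - (s : ℝ) / k) / (1 - l)) ∧ ∀ α : ℝ, 1 < α → α ∉ E → AllRep a k l α := by
  refine pow_alg_one {N : ℕ | ¬ Rep a k N} (max 0 (2 - (s : ℝ) / k)) l (le_max_left _ _) hl ?_ |>.imp fun E hE =>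
    ⟨hE.1, fun α hα hαE c hc hca j D => ?_⟩
  · refine count_halves_large _ _ (le_max_left _ _) fun ε hε => ⟨1, ?_⟩
    have hlim : Tendsto (fun T : ℕ => (T : ℝ) / 2) atTop atTop :=
      tendsto_natCast_atTop_atTop.atTop_div_const (by norm_num)
    filter_upwards [hlim.eventually (h ε hε), hlim.eventually_ge_atTop 1] with T hT hT1
    have hT2 : (2 : ℝ) ≤ T := by linarith
    have hsub : {m | m ∈ {N : ℕ | ¬ Rep a k N} ∧ m ≤ T ∧ T ≤ 2 * m} ⊆ Exceptional a k ((T : ℝ) / 2) := by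
      rintro m ⟨h1, h2, h3⟩
      have h2r : (m : ℝ) ≤ T := by exact_mod_cast h2
      have h3r : (T : ℝ) ≤ 2 * m := by exact_mod_cast h3
      exact ⟨⟨by linarith, by linarith⟩, h1⟩
    have hfin : (Exceptional a k ((T : ℝ) / 2)).Finite := by
      refine (Set.finite_Iic ⌊2 * ((T : ℝ) / 2)⌋₊).subset ?_
      rintro N ⟨⟨_, hN⟩, _⟩
      exact Nat.le_floor hN
    have h4 : (({m | m ∈ {N : ℕ | ¬ Rep a k N} ∧ m ≤ T ∧ T ≤ 2 * m}).ncard : ℝ) ≤ ((T : ℝ) / 2) ^ (2 - (s : ℝ) / k + ε) :=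
      le_trans (by exact_mod_cast Set.ncard_le_ncard hsub hfin) hT
    rw [one_mul]
    refine h4.trans ?_
    calc ((T : ℝ) / 2) ^ (2 - (s : ℝ) / k + ε) ≤ ((T : ℝ) / 2) ^ (max 0 (2 - (s : ℝ) / k) + ε) :=
          Real.rpow_le_rpow_of_exponent_le hT1 (by have := le_max_right 0 (2 - (s : ℝ) / k); linarith)
      _ ≤ (T : ℝ) ^ (max 0 (2 - (s : ℝ) / k) + ε) :=
          Real.rpow_le_rpow (by linarith) (by linarith) (by have := le_max_left 0 (2 - (s : ℝ) / k); linarith)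
  · filter_upwards [hE.2 α hα hαE c hc hca j D] with n hn N hN
    exact not_not.1 (hn N hN)

/-- **Theorem.** -/
theorem result (k s : ℕ) (hk : 2 ≤ k) (hs : k + 1 ≤ s) :
    ∀ᵐ a : Fin s → ℝ, (∀ i, 0 < a i) →
      (∀ l : ℝ, l < 1 → ∃ E : Set ℝ, dimH E ≤ ENNReal.ofReal (max 0 (2 - (s : ℝ) / k) / (1 - l)) ∧
        ∀ α : ℝ, 1 < α → α ∉ E → AllRep a k l α) ∧
      (∀ᵐ α : ℝ, 1 < α → ∀ l : ℝ, l < 1 → l < (s : ℝ) / k - 1 → AllRep a k l α) := by
  filter_upwards [MP_45c923_nt.AlmostAllTargets.result.2 k s hk hs] with a ha hpos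
  have hp := part1 a k (ha hpos)
  refine ⟨hp, ?_⟩
  have h1 : ∀ q : {q : ℚ // (q : ℝ) < 1 ∧ (q : ℝ) < (s : ℝ) / k - 1}, ∀ᵐ α : ℝ, 1 < α → AllRep a k q.1 α := by
    rintro ⟨q, hq1, hq2⟩
    simp only at hq1 hq2 ⊢
    obtain ⟨E, hE, hg⟩ := hp q hq1
    have hnull : volume E = 0 := null_of_dim (by
      rw [div_lt_one (by linarith)]
      exact max_lt (by linarith) (by linarith)) hE
    have hae : ∀ᵐ α : ℝ, α ∉ E := measure_eq_zero_iff_ae_notMem.1 hnull
    filter_upwards [hae] with α h2 h3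
    exact hg α h3 h2
  filter_upwards [ae_all_iff.2 h1] with α h2 hα l hl1 hl2 c hc hca j D
  obtain ⟨q, hq1, hq2⟩ := exists_rat_btwn (show l < min 1 ((s : ℝ) / k - 1) from lt_min hl1 hl2)
  filter_upwards [h2 ⟨q, hq2.trans_le (min_le_left _ _), hq2.trans_le (min_le_right _ _)⟩ hα c hc hca j |D|,
    (grow hα hc j).eventually_ge_atTop 1] with n h3 h4 N hN
  exact h3 N (hN.mono h4 hq1.le le_rfl)

end Pool.Agent.Results.MP_ee77ae_nt.PrimePowersNearPowers
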