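import Pool.Agent.Q241.PW.Main
import Pool.Agent.Q241.PW.Reg
import Pool.Agent.Q241.PW.Ex
import Pool.Agent.Q241.PW.Num

/-!
# Waring's problem for randomly perturbed powers

Each `x ^ k` is replaced by `x ^ k + e x` with independent random `e x`, uniformly distributed on
`{0, ..., ⌊x ^ μ⌋}`, `0 < μ < k`.  A few perturbed powers, together with exact powers, represent
almost surely all large integers.  For `μ = k / 40` the number of summands is `4 k`, for every `k`.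
-/

set_option autoImplicit false

open MeasureTheory ProbabilityTheory Filter

namespace Pool.Agent.Results.MP_ee77ae_nt.RandomlyPerturbedPowers

/-- the natural numbers `e x` are independent random variables, `e x` has the uniform distribution on
`{0, 1, ..., ⌊x ^ μ⌋}` -/
structure IsPerturbation {Ω : Type} [MeasurableSpace Ω] (P : Measure Ω) (e : ℕ → Ω → ℕ) (μ : ℝ) :
    Prop where
  meas : ∀ x, Measurable (e x)
  indep : iIndepFun e P
  law : ∀ x j : ℕ, j ≤ ⌊(x : ℝ) ^ μ⌋₊ →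
    P {ω | e x ω = j} = ENNReal.ofReal (1 / ((⌊(x : ℝ) ^ μ⌋₊ : ℝ) + 1))

/-- `N = ∑_(i ≤ s) (y_i ^ k + f (y_i)) + ∑_(j ≤ t) z_j ^ k` with elements `y_i`, `z_j` of `Z`, the
`y_i` distinct -/
def Rep (k s t : ℕ) (Z : Set ℕ) (f : ℕ → ℕ) (N : ℕ) : Prop :=
  ∃ (y : Fin s → ℕ) (z : Fin t → ℕ), (∀ i, y i ∈ Z) ∧ Function.Injective y ∧ (∀ j, z j ∈ Z) ∧
    N = ∑ i, (y i ^ k + f (y i)) + ∑ j, z j ^ k

/-- for all random perturbations of exponent `μ`: almost surely all large integers are represented -/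
def AllLarge (k s t : ℕ) (Z : Set ℕ) (μ : ℝ) : Prop :=
  ∀ (Ω : Type) [MeasurableSpace Ω] (P : Measure Ω) [IsProbabilityMeasure P] (e : ℕ → Ω → ℕ),
    IsPerturbation P e μ → ∀ᵐ ω ∂P, ∀ᶠ N : ℕ in atTop, Rep k s t Z (fun x => e x ω) N

/-- **Waring's problem for randomly perturbed powers.** -/
theorem result :
    -- the perturbations exist
    (∀ μ : ℝ, ∃ P : Measure (ℕ → ℕ), IsProbabilityMeasure P ∧ IsPerturbation P (fun x f => f x) μ) ∧
    -- the general theorem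
    (∀ (k s t : ℕ) (μ : ℝ), 1 ≤ k → 0 < μ → μ < k → μ < s → (1 - 1 / (k : ℝ)) ^ t < μ / k →
      AllLarge k s t {n : ℕ | 1 ≤ n} μ) ∧
    -- `4 k` summands
    (∀ k : ℕ, 1 ≤ k → AllLarge k (k / 40 + 1) (4 * k - (k / 40 + 1)) {n : ℕ | 1 ≤ n} ((k : ℝ) / 40)) ∧
    -- powers of primes
    (∃ κ : ℝ, 0 < κ ∧ κ ≤ 1 ∧ ∀ (k s t : ℕ) (μ : ℝ), 1 ≤ k → 0 < μ → μ < k → μ < s →
      (1 - κ / k) ^ t < μ / k → AllLarge k s t {p : ℕ | p.Prime} μ) := by
  have hgen : ∀ (Z : Set ℕ) (κ : ℝ), 0 < κ → κ ≤ 1 →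
      (∀ l : ℝ, l < 1 → Pool.Agent.Q241.PW.Regular Z κ l) → ∀ (k s t : ℕ) (μ : ℝ), 1 ≤ k → 0 < μ →
      μ < k → μ < s → (1 - κ / k) ^ t < μ / k → AllLarge k s t Z μ := by
    intro Z κ hκ hκ1 hZ k s t μ hk hμ hμk hs ht Ω _ P _ e he
    obtain ⟨w, rfl⟩ : ∃ w, s = w + 1 := by
      rcases s with _ | w
      · simp only [CharP.cast_eq_zero] at hs
        linarith
      · exact ⟨w, rfl⟩
    have hw0 : (0 : ℝ) < w + 1 := by positivity
    push_cast at hs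
    have h1 : μ / (w + 1) < 1 := by rwa [div_lt_one hw0]
    obtain ⟨l, hl1, hl2⟩ := exists_between h1
    have hl3 : μ < l * (w + 1) := by rwa [div_lt_iff₀ hw0] at hl1
    have he' : Pool.Agent.Q241.PW.Unif P e (fun x => ⌊(x : ℝ) ^ μ⌋₊) := ⟨he.meas, he.indep, he.law⟩
    filter_upwards [Pool.Agent.Q241.PW.rep_ae hk hκ hκ1 (hZ l hl2) hμ hμk ht hl3 he'] with ω hω
    filter_upwards [hω] with N hN
    exact hN
  have hpos : ∀ l : ℝ, l < 1 → Pool.Agent.Q241.PW.Regular {n : ℕ | 1 ≤ n} 1 l := by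
    intro l hl
    obtain ⟨c, x₀, hc, h⟩ := Pool.Agent.Q241.PW.regular_pos
    refine ⟨c, max x₀ 1, hc, fun x hx => ⟨(h x ((le_max_left _ _).trans hx)).1, ?_⟩⟩
    refine le_trans ?_ (h x ((le_max_left _ _).trans hx)).2
    apply mul_le_mul_of_nonneg_left _ hc.le
    exact Real.rpow_le_rpow_of_exponent_le ((le_max_right _ _).trans hx) hl.le
  have hpos' := hgen _ 1 one_pos le_rfl hpos
  refine ⟨fun μ => ?_, hpos', fun k hk => ?_, ?_⟩
  · obtain ⟨P, hP, h⟩ := Pool.Agent.Q241.PW.exists_unif (fun x => ⌊(x : ℝ) ^ μ⌋₊)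
    exact ⟨P, hP, h.meas, h.indep, h.law⟩
  · have hk0 : (0 : ℝ) < k := by exact_mod_cast hk
    refine hpos' k (k / 40 + 1) (4 * k - (k / 40 + 1)) ((k : ℝ) / 40) hk (by positivity) (by linarith)
      ?_ (Pool.Agent.Q241.PW.four_k hk)
    have h1 : k < 40 * (k / 40 + 1) := by omega
    have h2 : (k : ℝ) < 40 * ((k / 40 + 1 : ℕ) : ℝ) := by exact_mod_cast h1
    linarith
  · obtain ⟨κ, hκ, hκ1, hZ⟩ := Pool.Agent.Q241.PW.regular_prime
    exact ⟨κ, hκ, hκ1, hgen _ κ hκ hκ1 hZ⟩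

end Pool.Agent.Results.MP_ee77ae_nt.RandomlyPerturbedPowers
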